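import Pool.Agent.H4.CC.Ca

/-!
# The A-theoretic Farrell–Jones conjecture: CAT(0) cube complexes with coloured hyperplanes

`ClosedA C` (library) lists published closure properties of the class of the groups which satisfy the
Farrell–Jones conjecture for A-theory with coefficients and finite wreath products (Enkelmann, Lück, Pieper,
Ullmann, Winges): it contains `ℤ`; subgroups, finite products, free products, overgroups of finite index,
directed colimits, the extension criterion with virtually cyclic subgroups of the quotient, and acylindrical
actions on trees in the fibered version.  The groups in this class satisfy the conjecture of MP_63c928_gt.

Let `G` act on a median graph `X`, that is on a CAT(0) cube complex: of any dimension, finite or infinite,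
not necessarily locally finite; the action need not be proper or cocompact.  Suppose that the hyperplanes
have an invariant colouring such that hyperplanes which cross have different colours (for instance: no
hyperplane crosses any of its translates; or `X` is a product of trees whose factors are preserved;
infinitely many colours are allowed), and that no hyperplane is inverted.

**Theorem.**  Suppose that the stabilizers of the vertices are in `C`, and that for each colour `i` there is
a homomorphism `ρ` from `G` to a group in `C` such that either `ρ` has finite kernels on the finitely
generated subgroups of the stabilizers of the half-spaces of colour `i` (`KerFin`; for instance `ρ` is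
injective on these stabilizers, or they are locally finite), or the finitely generated subgroups of these
stabilizers with cyclic image are virtually cyclic and their elements of infinite order in the kernel of `ρ`
are balanced in `G` (`KerCyc`).  Then `G` is in `C`.

For trees this is `MP_63c928_gt.LocallyVirtuallyCyclicEdges` of the library.

Outline of the proof.  For a finite set `J` of colours let `R_J(x)` be the set of the vertices which are
joined with `x` by walks which cross only hyperplanes with colours in `J`.  For a colour `i` which is not in
`J` the regions `R_J(y)` in `R_{J ∪ i}(x)` are the vertices of a tree, whose edges are the hyperplanes of
colour `i` which cross `R_{J ∪ i}(x)`: two parallel edges in the region are joined by a strip of squares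
whose rails cross hyperplanes with colours in `J`, since no two hyperplanes of colour `i` cross; and a
hyperplane of colour `i` separates the regions at its sides.  An element which fixes an edge of the tree
preserves a half-space of colour `i`.  By induction the stabilizers of the regions are in `C`, and `G` is
their directed union.
-/

set_option autoImplicit false

namespace Pool.Agent.Results.MP_63c928_gt.ColouredHyperplanes

open Pool.Agent.H4.CC
open Q182.Cyl (ClosedA)

/-- **Groups acting on CAT(0) cube complexes with coloured hyperplanes.** -/
theorem result (C : ∀ (G : Type) [Group G], Prop) (hC : ClosedA C)
    (V G : Type) [Group G] [MulAction G V] (X : SimpleGraph V) (hX : Median X)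
    (h : ∀ (g : G) (x y : V), X.Adj x y → X.Adj (g • x) (g • y))
    (U : Type) (cl : V → V → U) (hcl : Colouring G X cl)
    (hinv : ∀ (g : G) (a b : V), X.Adj a b → ¬ Par X (g • (a, b)) (b, a))
    (hst : ∀ v : V, C (MulAction.stabilizer G v))
    (hρ : ∀ i : U, ∃ (Q : Type) (_ : Group Q) (ρ : G →* Q), C Q ∧
      (KerFin X cl i ρ ∨ KerCyc X cl i ρ)) : C G :=
  median_C C hC hX h hcl hinv hst hρ

end Pool.Agent.Results.MP_63c928_gt.ColouredHyperplanes
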