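import Pool.Agent.H4.CC.Fj

/-!
# The A-theoretic Farrell–Jones conjecture: separable stabilizers of half-spaces

`C` is any class of groups with the closure properties `ClosedE C` (it contains `ℤ`; subgroups, finite
products, free products, overgroups of finite index, directed colimits, and the extension criterion with
virtually cyclic subgroups of the quotient).  All this is published for the class of the groups which
satisfy the Farrell–Jones conjecture for A-theory with coefficients and finite wreath products (Enkelmann,
Lück, Pieper, Ullmann, Winges), and the groups in this class satisfy the conjecture of MP_63c928_gt.

Let `G` act on a median graph `X`, that is on a CAT(0) cube complex: of any dimension, finite or infinite,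
not necessarily locally finite; the action need not be proper.

**Theorem.**  Suppose that there are finitely many orbits of pairs of edges with a common vertex, that for
each vertex some homomorphism from `G` to a group in `C` is injective on its stabilizer, and that the
stabilizers `St h` of the half-spaces, and their double cosets `St h * St h'` for hyperplanes `h`, `h'` which
cross, are closed in the topology on `G` which is given by the homomorphisms to the groups in `C`
(`Separable C`).  Then `G` is in `C`.

With the finite groups in the place of `C`, in the hypothesis, this is the criterion of Haglund and Wise for
virtually special groups.  Here the stabilizers of the vertices can be arbitrary groups in `C`, and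
separability is only required for quotients in `C`: for instance all polycyclic quotients, all lattices,
all solvable quotients and all quotients which are hyperbolic groups can be used.

Outline of the proof.  There are finitely many double cosets which have to be avoided by the kernel `K` of
a homomorphism to a group in `C` such that `K` acts freely on the vertices and specially.  Let `L` be the
set of the `K`-orbits of oriented hyperplanes and `W` the right-angled Coxeter group with generators `s ℓ`,
for `ℓ` in `L`, where `s ℓ` and `s m` commute if `ℓ` and `m` cross.  Crossing a hyperplane `ℓ` is mapped to
`s ℓ * s ℓ'`, where `ℓ'` is the opposite of `ℓ` (and to `s ℓ` if `ℓ' = ℓ`).  Median graphs are simply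
connected, so this gives a map from the vertices to `W`, which is compatible with the actions, and `G` maps
to `W ⋊ (G ⧸ K)`.  The map is injective on the vertices: the crossings of the hyperplanes `ℓ` are partial
bijections of the set `V` of vertices, and if one adds a flag for each pair of opposite labels they extend
to an action of `W` on `V × (L → Bool)`.  `W ⋊ (G ⧸ K)` is in `C` by a theorem on graph products of the
library.
-/

set_option autoImplicit false

namespace Pool.Agent.Results.MP_63c928_gt.SeparableHalfspaces

open Pool.Agent.Y110.FJ Pool.Agent.H4.CC

/-- **Groups acting on CAT(0) cube complexes with separable stabilizers of half-spaces.** -/
theorem result (C : ∀ (G : Type) [Group G], Prop) (hC : ClosedE C)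
    (V G : Type) [Group G] [MulAction G V] (X : SimpleGraph V) (hX : Median X)
    (h : ∀ (g : G) (x y : V), X.Adj x y → X.Adj (g • x) (g • y))
    (hS : Separable C (X := X) (G := G) h) : C G :=
  fj_separable C hC hX h hS

end Pool.Agent.Results.MP_63c928_gt.SeparableHalfspaces
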